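import Pool.Agent.H78.GS.TA3

set_option autoImplicit false

open Finset Pool.Agent.H6.N4D

namespace Pool.Agent.H30.GS3

open Pool.Agent.H78.GS

/-- the count of a finite union -/
private theorem grd_union (S : Par) (E : ℕ → ℤ → Prop) (b : ℝ) (m : ℕ)
    (h : ∀ k < m, S.cnt (E k) ≤ b) : S.cnt (fun t => ∃ k < m, E k t) ≤ m * b := by
  induction m with
  | zero =>
    have h0 : S.cnt (fun t => ∃ k < 0, E k t) = 0 := by
      unfold Par.cnt
      rw [Nat.cast_eq_zero, card_eq_zero, eq_empty_iff_forall_notMem]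
      intro t ht
      rw [Par.mem_fl] at ht
      obtain ⟨-, k, hk, -⟩ := ht
      omega
    rw [h0]; simp
  | succ m ih =>
    have h1 := ih fun k hk => h k (by omega)
    have h2 := h m (by omega)
    have h3 : S.cnt (fun t => ∃ k < m + 1, E k t) ≤
        S.cnt (fun t => ∃ k < m, E k t) + S.cnt (E m) := by
      refine Par.cnt_le_add ?_
      rintro t - ⟨k, hk, hE⟩
      rcases Nat.lt_succ_iff_lt_or_eq.1 hk with h | h
      · exact Or.inl ⟨k, h, hE⟩
      · exact Or.inr (h ▸ hE)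
    push_cast
    linarith

/-- a point of the grid close to a given point -/
private theorem grd_grid (r s : ℝ) (M : ℕ) (hM : 1 ≤ M) (hs0 : 0 ≤ s) (hs1 : s ≤ 2 * r) :
    ∃ k < M + 1, |s - k * (2 * r / M)| ≤ 2 * r / M := by
  have hM0 : (0 : ℝ) < M := by exact_mod_cast hM
  rcases eq_or_lt_of_le (hs0.trans hs1) with h | h
  · refine ⟨0, by omega, ?_⟩
    have hs : s = 0 := by linarith
    rw [hs, ← h]; simp
  · have hd : 0 < 2 * r / M := by positivity
    refine ⟨⌊s / (2 * r / M)⌋₊, ?_, ?_⟩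
    · have h1 : s / (2 * r / M) ≤ M := by
        rw [div_le_iff₀ hd]
        have : (M : ℝ) * (2 * r / M) = 2 * r := by field_simp
        linarith
      have h2 : ⌊s / (2 * r / M)⌋₊ ≤ M := by
        refine Nat.floor_le_of_le h1
      omega
    · have h1 : (⌊s / (2 * r / M)⌋₊ : ℝ) ≤ s / (2 * r / M) := Nat.floor_le (by positivity)
      have h2 : s / (2 * r / M) < ⌊s / (2 * r / M)⌋₊ + 1 := Nat.lt_floor_add_one _
      rw [le_div_iff₀ hd] at h1
      rw [div_lt_iff₀ hd] at h2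
      rw [abs_le]
      constructor <;> nlinarith

theorem pf_GRD : T_GRD := by
  intro S e₁ κ κ' κ₁ ν ν' c₀ θ F D hok hN he hν hν' hκ hemp hhit halt hsum
  by_contra hcon
  push Not at hcon
  have hr := hok.hr0
  set r : ℝ := ν' * e₁ / S.rho with hrdef
  have hr0 : 0 ≤ r := by positivity
  set M : ℕ := ⌊4 * ν' / ν⌋₊ + 1 with hM
  have hM1 : 1 ≤ M := by omega
  have hM0 : (0 : ℝ) < M := by exact_mod_cast hM1
  have hMge : 4 * ν' / ν ≤ M := by
    have := (Nat.lt_floor_add_one (4 * ν' / ν)).le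
    rw [hM]; push_cast; exact this
  have hMle : ((M + 1 : ℕ) : ℝ) ≤ 4 * ν' / ν + 3 := by
    have := Nat.floor_le (show 0 ≤ 4 * ν' / ν by positivity)
    rw [hM]; push_cast; linarith
  -- the grid
  set g : ℕ → ℝ := fun k => c₀ - r + k * (2 * r / M) with hg
  have hgr : ∀ k < M + 1, |g k - c₀| ≤ r := by
    intro k hk
    have hk1 : (k : ℝ) ≤ M := by exact_mod_cast Nat.lt_succ_iff.1 hk
    have hk2 : (k : ℝ) * (2 * r / M) ≤ 2 * r := by
      rw [mul_div_assoc', div_le_iff₀ hM0]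
      nlinarith
    have hk3 : 0 ≤ (k : ℝ) * (2 * r / M) := by positivity
    rw [hg, abs_le]
    constructor <;> simp only <;> linarith
  have hmis : ∀ k < M + 1, Mis S e₁ κ (ν / 2) θ F D (g k) := fun k hk => by
    rcases halt (g k) (hgr k hk) with h | h
    · exact absurd h (hcon _ (hgr k hk))
    · exact h
  unfold Mis at hmis
  have hun := grd_union S (fun k t => ∃ j ∈ F t, ∃ i ∈ F (t + (D : ℤ)),
    ds S e₁ θ D (g k) t j i ≤ ν / 2) (κ * S.N) (M + 1) hmis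
  unfold Hit at hhit
  have htot : S.cnt (fun t => F t = ∅ ∨ ((∃ j ∈ F t, ∀ i ∈ F (t + (D : ℤ)),
      ν' < ds S e₁ θ D c₀ t j i) ∨ ∃ k < M + 1, ∃ j ∈ F t, ∃ i ∈ F (t + (D : ℤ)),
      ds S e₁ θ D (g k) t j i ≤ ν / 2)) < S.N := by
    have h1 := Par.cnt_or (S := S) (fun t => F t = ∅) (fun t => (∃ j ∈ F t, ∀ i ∈ F (t + (D : ℤ)),
      ν' < ds S e₁ θ D c₀ t j i) ∨ ∃ k < M + 1, ∃ j ∈ F t, ∃ i ∈ F (t + (D : ℤ)),
      ds S e₁ θ D (g k) t j i ≤ ν / 2)
    have h2 := Par.cnt_or (S := S) (fun t => ∃ j ∈ F t, ∀ i ∈ F (t + (D : ℤ)),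
      ν' < ds S e₁ θ D c₀ t j i) (fun t => ∃ k < M + 1, ∃ j ∈ F t, ∃ i ∈ F (t + (D : ℤ)),
      ds S e₁ θ D (g k) t j i ≤ ν / 2)
    have h3 : ((M + 1 : ℕ) : ℝ) * (κ * S.N) ≤ (4 * ν' / ν + 3) * κ * S.N := by
      have := mul_le_mul_of_nonneg_right hMle (mul_nonneg hκ hN.le)
      linarith
    have h4 : (κ₁ + κ' + (4 * ν' / ν + 3) * κ) * S.N < 1 * S.N :=
      mul_lt_mul_of_pos_right hsum hN
    nlinarith
  obtain ⟨t, -, ht⟩ := Par.exists_not hN.le htot
  push Not at ht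
  obtain ⟨hne, hh, hm⟩ := ht
  obtain ⟨j, hj⟩ := hne
  obtain ⟨i, hi, hds⟩ := hh j hj
  unfold ds at hds
  have hx : 0 < S.x t := Par.x_pos t
  obtain ⟨z, hz⟩ := exists_int (θ (t + (D : ℤ)) i - θ t j - c₀ / S.x t)
  set d : ℝ := θ (t + (D : ℤ)) i - θ t j - c₀ / S.x t - z with hd
  have hdle : |d| * S.x t ≤ r := by
    rw [hz]
    rw [hrdef, le_div_iff₀ hr]
    rw [div_mul_eq_mul_div, div_le_iff₀ he] at hds
    nlinarith
  have hc : |d * S.x t| ≤ r := by
    rw [abs_mul, abs_of_pos hx]; exact hdle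
  obtain ⟨h1, h2⟩ := abs_le.1 hc
  obtain ⟨k, hk, hkd⟩ := grd_grid r (d * S.x t + r) M hM1 (by linarith) (by linarith)
  have h3 := hm k hk j hj i hi
  refine absurd ?_ (not_le.2 h3)
  unfold ds
  have h4 : θ (t + (D : ℤ)) i - θ t j - g k / S.x t =
      (d * S.x t + r - k * (2 * r / M)) / S.x t + z := by
    rw [hg, hd]
    field_simp
    ring
  rw [h4, nd_add_int]
  have h5 : nd ((d * S.x t + r - k * (2 * r / M)) / S.x t) ≤ 2 * r / M / S.x t := by
    refine (nd_le_abs _).trans ?_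
    rw [abs_div, abs_of_pos hx]
    exact div_le_div_of_nonneg_right hkd hx.le
  have h6 : 0 ≤ S.rho * S.x t / e₁ := by positivity
  refine (mul_le_mul_of_nonneg_left h5 h6).trans ?_
  have h7 : S.rho * S.x t / e₁ * (2 * r / M / S.x t) = 2 * ν' / M := by
    rw [hrdef]; field_simp
  rw [h7, div_le_div_iff₀ hM0 two_pos]
  rw [div_le_iff₀ hν] at hMge
  linarith

end Pool.Agent.H30.GS3
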